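import Pool.Agent.K6.H17.LC.Main
import Mathlib.NumberTheory.Real.GoldenRatio
import Mathlib.Analysis.SpecialFunctions.Log.Basic
import Mathlib.Analysis.SpecialFunctions.Pow.Real

/-!
# The number of crossings of the knots
-/

set_option autoImplicit false

namespace Pool.Agent.K6.H17.LC

open Pool.Agent.H835R2.Knot (Piece Word Front Fits run comps Move crossingSet switchAt up dn sw
  Closed IsKnot Step Isotopic IsInvariant DegreeLE circle crossings)
open Pool.Agent.Y466.FT Pool.Agent.Y466.RW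

/-! ### crossings -/

theorem crossings_cl3 (w : Braid) : crossings (cl3 w) = w.length := by
  unfold crossings cl3
  rw [List.countP_append, List.countP_append]
  have h : (draw w).countP Piece.isCrossing = w.length := by
    induction w with
    | nil => rfl
    | cons l w ih =>
      have e : draw (l :: w) = piece l :: draw w := rfl
      rw [e, List.countP_cons, ih, List.length_cons]
      obtain ⟨b, i⟩ := l
      cases b <;> rfl
  rw [h]
  have h1 : top3.countP Piece.isCrossing = 0 := rfl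
  have h2 : bot.countP Piece.isCrossing = 0 := rfl
  omega

theorem length_cl3 (w : Braid) : (cl3 w).length = w.length + 6 := by
  unfold cl3 draw
  simp only [List.length_append, List.length_map]
  have h1 : top3.length = 3 := rfl
  have h2 : bot.length = 3 := rfl
  omega

/-! ### the conjugate words -/

/-- the word of a conjugate -/
def cw (h : W2) (k : ℕ) : W2 := h ++ xw k ++ FreeGroup.invRev h

theorem mk_cw (h : W2) (k : ℕ) : FreeGroup.mk (cw h k) = FreeGroup.mk h * xg k * (FreeGroup.mk h)⁻¹ := by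
  unfold cw xg
  rw [← FreeGroup.mul_mk, ← FreeGroup.mul_mk, FreeGroup.inv_mk]

theorem exists_cw (k : ℕ) : ∃ h : W2, h.length ≤ 2 ∧
    (M5 * (Phi (FreeGroup.mk (cw h k))).1).trace ≠ 4 := by
  obtain ⟨g, hg, hne⟩ := exists_conj k
  have key : ∃ h : W2, h.length ≤ 2 ∧ FreeGroup.mk h = g := by
    simp only [List.mem_cons, List.not_mem_nil, or_false] at hg
    rcases hg with rfl | rfl | rfl | rfl
    · exact ⟨[], by decide, rfl⟩
    · exact ⟨[(0, true)], by decide, rfl⟩
    · exact ⟨[(1, true)], by decide, rfl⟩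
    · exact ⟨[(0, true), (1, true)], by decide, rfl⟩
  obtain ⟨h, h1, h2⟩ := key
  refine ⟨h, h1, ?_⟩
  rw [mk_cw, h2]
  exact hne

/-- **The knots.**  For every `k ≥ 2` there is a knot, the closure of a braid with three strands and at
most `2 ^ (k + 1) + 10` crossings, not seen by invariants of order less than `fib (k + 1)`. -/
theorem knots (k : ℕ) (hk : 2 ≤ k) : ∃ β : Braid, (∀ x ∈ β, x.2 < 2) ∧
    β.length ≤ 2 ^ (k + 1) + 10 ∧ IsKnot (cl3 β) ∧
    (∀ (n : ℕ), n + 1 ≤ Nat.fib (k + 1) → ∀ (A : Type) [AddCommGroup A] (v : Word → A),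
      IsInvariant v → DegreeLE n v → v (cl3 β) = v circle) ∧
    Separated (8 * (β.length + 6)) (cl3 β) circle := by
  obtain ⟨h, h1, h2⟩ := exists_cw k
  obtain ⟨k, rfl⟩ := Nat.exists_eq_add_of_le' hk
  have hlen : (cw h (k + 2)).length ≤ 2 ^ (k + 2) + 4 := by
    unfold cw
    rw [List.length_append, List.length_append, FreeGroup.invRev_length, len_xw]
    omega
  have hb0 : b0.length = 2 := rfl
  refine ⟨bw (cw h (k + 2)) ++ b0, ?_, ?_, isKnot_Kn _, ?_, ?_⟩
  · intro x hx
    rcases List.mem_append.1 hx with hx | hx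
    · exact lt_bw _ x hx
    · have h0 : ∀ y ∈ b0, y.2 < 2 := by decide
      exact h0 x hx
  · rw [List.length_append, len_bw, hb0]
    have : 2 ^ (k + 2 + 1) = 2 * 2 ^ (k + 2) := by ring
    omega
  · intro n hn A _ v hv hd
    have hdrop : Drop A (n + 1) (FreeGroup.mk (cw h (k + 2))) := by
      rw [mk_cw]
      exact ((drop_xg A (k + 2)).1.mono hn).conj _
    exact (not_seen hv hd _ hdrop).trans (hv _ _ (isKnot_Kn []) unknot)
  · refine separated_of_ne ?_ ?_ ?_
    · refine JP_ne ?_ h2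
      intro H _ χ
      rw [mk_cw, _root_.map_mul, _root_.map_mul, _root_.map_inv, comm_xg, mul_one, mul_inv_cancel]
    · rw [length_cl3]
    · have : circle.length = 2 := rfl
      omega

/-! ### the golden ratio -/

open Real

/-- the exponent, `log 2 / log φ = 1.4404…` -/
noncomputable def gam : ℝ := Real.log 2 / Real.log goldenRatio

theorem log_pos' : 0 < Real.log goldenRatio := Real.log_pos one_lt_goldenRatio

theorem gam_pos : 0 < gam := div_pos (Real.log_pos (by norm_num)) log_pos'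

theorem rpow_gam : goldenRatio ^ gam = (2 : ℝ) := by
  rw [Real.rpow_def_of_pos goldenRatio_pos]
  unfold gam
  rw [mul_div_cancel₀ _ (ne_of_gt log_pos')]
  exact Real.exp_log (by norm_num)

theorem rpow_gam_pow (j : ℕ) : (goldenRatio ^ j) ^ gam = (2 : ℝ) ^ j := by
  rw [← Real.rpow_natCast, ← Real.rpow_mul goldenRatio_pos.le, mul_comm, Real.rpow_mul goldenRatio_pos.le,
    rpow_gam, Real.rpow_natCast]

theorem gam_lt : gam < 3 / 2 := by
  unfold gam
  rw [div_lt_iff₀ log_pos']
  have h3 : (goldenRatio : ℝ) ^ 3 = 2 * goldenRatio + 1 := by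
    have := goldenRatio_sq
    linear_combination (goldenRatio + 1) * this
  have h4 : (4 : ℝ) < goldenRatio ^ 3 := by
    rw [h3]
    have h5 : (3 : ℝ) / 2 < goldenRatio := by
      have hs := goldenRatio_sq
      have hp := goldenRatio_pos
      nlinarith
    linarith
  have h5 : Real.log 4 < Real.log (goldenRatio ^ 3) := Real.log_lt_log (by norm_num) h4
  rw [Real.log_pow] at h5
  have h6 : Real.log 4 = 2 * Real.log 2 := by
    rw [show (4 : ℝ) = 2 ^ 2 by norm_num, Real.log_pow]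
    norm_num
  rw [h6] at h5
  push_cast at h5
  linarith

theorem fib_ge (j : ℕ) : (goldenRatio : ℝ) ^ j ≤ Nat.fib (j + 2) ∧
    (goldenRatio : ℝ) ^ (j + 1) ≤ Nat.fib (j + 3) := by
  induction j with
  | zero =>
    refine ⟨by simp, ?_⟩
    have : Nat.fib 3 = 2 := rfl
    simp only [zero_add, pow_one, this]
    exact_mod_cast goldenRatio_lt_two.le
  | succ j ih =>
    refine ⟨ih.2, ?_⟩
    have e : Nat.fib (j + 1 + 3) = Nat.fib (j + 2) + Nat.fib (j + 3) := Nat.fib_add_two
    rw [e]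
    push_cast
    have := goldenRatio_pow_sub_goldenRatio_pow j
    have h1 := ih.1
    have h2 := ih.2
    have e2 : (goldenRatio : ℝ) ^ (j + 1 + 1) = goldenRatio ^ (j + 1) + goldenRatio ^ j := by linarith
    rw [e2]
    linarith

/-- the choice of `k` -/
theorem choice (n : ℕ) (hn : 1 ≤ n) : ∃ k : ℕ, 2 ≤ k ∧ n + 1 ≤ Nat.fib (k + 1) ∧
    ((2 ^ (k + 1) + 10 : ℕ) : ℝ) ≤ 33 * (n : ℝ) ^ gam := by
  have hex : ∃ j : ℕ, ((n + 1 : ℕ) : ℝ) ≤ goldenRatio ^ j :=
    (pow_unbounded_of_one_lt _ one_lt_goldenRatio).imp fun j hj => hj.le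
  classical
  obtain ⟨j, hj, hmin⟩ : ∃ j : ℕ, ((n + 1 : ℕ) : ℝ) ≤ goldenRatio ^ j ∧
      ∀ i < j, ¬ ((n + 1 : ℕ) : ℝ) ≤ goldenRatio ^ i :=
    ⟨Nat.find hex, Nat.find_spec hex, fun i hi => Nat.find_min hex hi⟩
  have hj0 : j ≠ 0 := by
    rintro rfl
    have : ((n + 1 : ℕ) : ℝ) ≤ 1 := by simpa using hj
    have h2 : n + 1 ≤ 1 := by exact_mod_cast this
    omega
  obtain ⟨i, rfl⟩ := Nat.exists_eq_succ_of_ne_zero hj0
  refine ⟨i + 2, by omega, ?_, ?_⟩
  · have h1 : ((n + 1 : ℕ) : ℝ) ≤ Nat.fib (i + 2 + 1) := hj.trans (fib_ge (i + 1)).1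
    exact_mod_cast h1
  · have h1 := hmin i (Nat.lt_succ_self i)
    push Not at h1
    have hn1 : (1 : ℝ) ≤ n := by exact_mod_cast hn
    have h2 : goldenRatio ^ i ≤ 2 * (n : ℝ) := by
      push_cast at h1
      linarith
    have h3 : (2 : ℝ) ^ i ≤ (2 * (n : ℝ)) ^ gam := by
      rw [← rpow_gam_pow]
      exact Real.rpow_le_rpow (pow_nonneg goldenRatio_pos.le _) h2 gam_pos.le
    have h4 : (2 * (n : ℝ)) ^ gam = 2 ^ gam * (n : ℝ) ^ gam :=
      Real.mul_rpow (by norm_num) (by positivity)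
    have h5 : (2 : ℝ) ^ gam ≤ 23 / 8 := by
      have h6 : (2 : ℝ) ^ gam ≤ 2 ^ (3 / 2 : ℝ) :=
        Real.rpow_le_rpow_of_exponent_le (by norm_num) gam_lt.le
      have h7 : (2 : ℝ) ^ (3 / 2 : ℝ) ≤ 23 / 8 := by
        have h8 : ((2 : ℝ) ^ (3 / 2 : ℝ)) ^ 2 = 8 := by
          rw [← Real.rpow_natCast, ← Real.rpow_mul (by norm_num)]
          norm_num
        have h9 : (0 : ℝ) ≤ 2 ^ (3 / 2 : ℝ) := by positivity
        nlinarith
      exact h6.trans h7
    have h6 : (1 : ℝ) ≤ (n : ℝ) ^ gam := Real.one_le_rpow hn1 gam_pos.le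
    have h7 : (2 : ℝ) ^ i ≤ 23 / 8 * (n : ℝ) ^ gam := by
      rw [h4] at h3
      exact h3.trans (mul_le_mul_of_nonneg_right h5 (by positivity))
    push_cast
    have e : (2 : ℝ) ^ (i + 2 + 1) = 8 * 2 ^ i := by ring
    rw [e]
    linarith

end Pool.Agent.K6.H17.LC
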