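import Pool.Agent.Y466.RW.Knot

/-!
# Functions of finite degree on a group, and the lower central series

`Vn n` is the set of the functions on a group with values in an abelian group all of whose `n`-fold
differences vanish.  `Drop i w`: the difference operator of `w` lowers the degree by `i`.
-/

set_option autoImplicit false

namespace Pool.Agent.K6.H17.LC

open Pool.Agent.Y466.FT Pool.Agent.Y466.RW

section
variable {G : Type} [Group G] {A : Type} [AddCommGroup A]

/-- the functions of degree less than `n` on a group -/
def Vn : ℕ → (G → A) → Prop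
  | 0, f => ∀ x, f x = 0
  | n + 1, f => ∀ g, Vn n (fun x => f (g * x) - f x)

theorem Vn.congr {n : ℕ} {f g : G → A} (h : Vn n f) (e : ∀ x, f x = g x) : Vn n g := by
  have : f = g := funext e
  rwa [← this]

theorem Vn.sub {n : ℕ} {f f' : G → A} (h : Vn n f) (h' : Vn n f') : Vn n (fun x => f x - f' x) := by
  induction n generalizing f f' with
  | zero => intro x; simp only [h x, h' x, sub_self]
  | succ n ih =>
    intro g
    exact (ih (h g) (h' g)).congr fun x => sub_sub_sub_comm _ _ _ _

theorem Vn.neg {n : ℕ} {f : G → A} (h : Vn n f) : Vn n (fun x => - f x) := by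
  induction n generalizing f with
  | zero => intro x; simp only [h x, neg_zero]
  | succ n ih =>
    intro g
    exact (ih (h g)).congr fun x => by rw [neg_sub, sub_neg_eq_add, neg_add_eq_sub]

theorem Vn.succ {n : ℕ} {f : G → A} (h : Vn n f) : Vn (n + 1) f := by
  induction n generalizing f with
  | zero =>
    intro g x
    show f (g * x) - f x = 0
    rw [h, h, sub_self]
  | succ n ih => intro g; exact ih (h g)

theorem Vn.trans {n : ℕ} {f : G → A} (h : Vn n f) (b : G) : Vn n (fun x => f (b * x)) := by
  cases n with
  | zero => intro x; exact h _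
  | succ n =>
    have h1 := (h b).succ
    have h2 := h1.sub h.neg
    exact h2.congr fun x => by abel

/-- the difference operator of `w` lowers the degree by `i` -/
def Drop (A : Type) [AddCommGroup A] (i : ℕ) (w : G) : Prop :=
  ∀ (m : ℕ) (f : G → A), Vn (m + i) f → Vn m (fun x => f (w * x) - f x)

theorem drop_one (w : G) : Drop A 1 w := fun _ _ h => h w

theorem Drop.inv {i : ℕ} {w : G} (h : Drop A i w) : Drop A i w⁻¹ := by
  intro m f hf
  refine ((h m f hf).trans w⁻¹).neg.congr fun x => ?_
  simp

theorem Drop.comm {i j : ℕ} {v w : G} (hv : Drop A i v) (hw : Drop A j w) :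
    Drop A (i + j) (v * w * v⁻¹ * w⁻¹) := by
  intro m f hf
  -- the function `f (w v x) - f (v w x)`
  have h1 : Vn m (fun x => f (v * w * x) - f (w * v * x)) := by
    have a1 : Vn m (fun x => (f (v * (w * x)) - f (w * x)) - (f (v * x) - f x)) := by
      have a : Vn (m + j) (fun x => f (v * x) - f x) := hv (m + j) f (by
        have : m + j + i = m + (i + j) := by omega
        rw [this]; exact hf)
      exact hw m _ a
    have a2 : Vn m (fun x => (f (w * (v * x)) - f (v * x)) - (f (w * x) - f x)) := by
      have a : Vn (m + i) (fun x => f (w * x) - f x) := hw (m + i) f (by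
        have : m + i + j = m + (i + j) := by omega
        rw [this]; exact hf)
      exact hv m _ a
    refine (a1.sub a2).congr fun x => ?_
    simp only [mul_assoc]
    abel
  refine (h1.trans (v⁻¹ * w⁻¹)).congr fun x => ?_
  have e1 : v * w * (v⁻¹ * w⁻¹ * x) = v * w * v⁻¹ * w⁻¹ * x := by group
  have e2 : w * v * (v⁻¹ * w⁻¹ * x) = x := by group
  rw [e1, e2]

theorem Drop.conj {i : ℕ} {w : G} (h : Drop A i w) (g : G) : Drop A i (g * w * g⁻¹) := by
  intro m f hf
  have h1 := (h m (fun x => f (g * x)) (hf.trans g)).trans g⁻¹
  refine h1.congr fun x => ?_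
  simp only [mul_assoc, mul_inv_cancel_left]

theorem Drop.mono {i j : ℕ} (hij : i ≤ j) {w : G} (h : Drop A j w) : Drop A i w := by
  intro m f hf
  obtain ⟨k, rfl⟩ := Nat.exists_eq_add_of_le hij
  have : ∀ k : ℕ, ∀ f : G → A, Vn (m + i) f → Vn (m + (i + k)) f := by
    intro k
    induction k with
    | zero => intro f h; exact h
    | succ k ih => intro f h; exact (ih f h).succ
  exact h m f (this k f hf)

/-- A function of degree less than `n` does not see `w`, if `w` lowers the degree by `n`. -/
theorem Drop.eq {n : ℕ} {w : G} (h : Drop A n w) {f : G → A} (hf : Vn n f) : f w = f 1 := by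
  have h1 := h 0 f (by rw [zero_add]; exact hf) 1
  have h2 : f (w * 1) - f 1 = 0 := h1
  rw [mul_one] at h2
  exact sub_eq_zero.1 h2

end

/-! ### Free groups -/

section
variable {L A : Type} [AddCommGroup A]

/-- A function of finite degree on words, which does not see cancellations, is a function of finite
degree on the free group. -/
theorem vn_of_dg {n : ℕ} {f : FreeMonoid (L × Bool) → A} (h : Dg (LE (L × Bool)) n f)
    {F : FreeGroup L → A} (hF : ∀ l : List (L × Bool), F (FreeGroup.mk l) = f (FreeMonoid.ofList l)) :
    Vn n F := by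
  induction n generalizing f F with
  | zero =>
    intro x
    obtain ⟨l, rfl⟩ := Quot.exists_rep x
    exact (hF l).trans (h _)
  | succ n ih =>
    intro g
    obtain ⟨l, rfl⟩ := Quot.exists_rep g
    refine ih (dg_left h (FreeMonoid.ofList l) 1) fun l' => ?_
    show F (FreeGroup.mk l * FreeGroup.mk l') - F (FreeGroup.mk l') = _
    rw [FreeGroup.mul_mk, hF, hF, FreeMonoid.ofList_append, one_mul]

end

end Pool.Agent.K6.H17.LC
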