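import Pool.Agent.K6.H17.LC.Val

/-!
# The Jones polynomial of sliced diagrams as a Laurent polynomial, and Vassiliev invariants
-/

set_option autoImplicit false

namespace Pool.Agent.K6.H17.LC

open Pool.Agent.H835R2.Knot (Piece Word Front Fits run comps Move crossingSet switchAt up dn sw
  Closed IsKnot Step Isotopic IsInvariant DegreeLE)
open Pool.Agent.H838R2.SL
open Pool.Agent.H838R2.Jones
open Pool.Agent.Helper454.Wh (insD delD swpD noD OPiece OWord)
open Pool.Agent.Y466.FT (Braid draw piece Separated)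
open LaurentPolynomial

noncomputable section

/-- the Jones polynomial (the unknot has the value `-(T 1 + T (-1))`, the square root of the usual
variable is `T 1`) -/
def JP (D : Word) : LaurentPolynomial ℤ :=
  opD (T 1) (T (-1)) D (fun _ => true) 1 (fun _ => false)

theorem hT : (T 1 : LaurentPolynomial ℤ) * T (-1) = 1 := by
  rw [← T_add]; simp

/-- the inclusion -/
def xu : (PowerSeries ℚ)ˣ := ⟨sx, sx', hsx, by rw [mul_comm]; exact hsx⟩

/-- the substitution `T 1 = 1 + X` -/
def phi1 : LaurentPolynomial ℤ →+* PowerSeries ℚ :=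
  LaurentPolynomial.eval₂ (Int.castRingHom (PowerSeries ℚ)) xu

theorem phi1_T : phi1 (T 1) = sx := by
  unfold phi1
  rw [eval₂_T]
  simp [xu]

theorem phi1_T' : phi1 (T (-1)) = sx' := by
  unfold phi1
  rw [eval₂_T]
  simp [xu]

theorem phi1_JP (D : Word) : phi1 (JP D) = valD D := by
  have h := congrFun (opD_map (s := (T 1 : LaurentPolynomial ℤ)) (s' := T (-1)) phi1 D (fun _ => true) 1)
    (fun _ => false)
  have e : (fun σ : ℕ → Bool => phi1 ((1 : H838R2.Jones.F (LaurentPolynomial ℤ)) σ)) = 1 := by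
    funext σ
    exact map_one _
  rw [phi1_T, phi1_T', e] at h
  exact h.symm

/-- the evaluation at `T 1 = 2` in the field with five elements -/
def u5 : (ZMod 5)ˣ := ⟨2, 3, by decide, by decide⟩

/-- the evaluation at `T 1 = 2` in the field with five elements -/
def phi5 : LaurentPolynomial ℤ →+* ZMod 5 := LaurentPolynomial.eval₂ (Int.castRingHom (ZMod 5)) u5

theorem phi5_T : phi5 (T 1) = 2 := by
  unfold phi5
  rw [eval₂_T]
  simp [u5]

theorem phi5_T' : phi5 (T (-1)) = 3 := by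
  unfold phi5
  rw [eval₂_T]
  simp [u5]

/-! ### invariance -/

theorem JP_move {x l r y : Word} (h : Move l r) (hl : Fits (x ++ l ++ y) Front.empty) :
    valD (x ++ l ++ y) = valD (x ++ r ++ y) := by
  rw [List.append_assoc, fits_append, fits_append] at hl
  obtain ⟨-, h2, -⟩ := hl
  have h3 := move_op hsx h (run x Front.empty) h2
  have e : ∀ w : Word, valD (x ++ w ++ y) = opD sx sx' x Front.empty.dir
      (opD sx sx' w (run x Front.empty).dir (opD sx sx' y (run w (run x Front.empty)).dir 1))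
        (fun _ => false) := by
    intro w
    show opD sx sx' (x ++ w ++ y) Front.empty.dir 1 (fun _ => false) = _
    rw [List.append_assoc, opD_append, opD_append]
  rw [e, e, dir_run l, h3 _ |>.2, ← dir_run r, (h3 _).1]
  exact 1

theorem valD_isotopic {D E : Word} (h : Isotopic D E) : valD D = valD E := by
  induction h with
  | rel D E h =>
    cases h with
    | mk x l r y hm h1 h2 => exact JP_move hm h1.1
  | refl D => rfl
  | symm D E _ ih => exact ih.symm
  | trans D E F _ _ h1 h2 => exact h1.trans h2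

/-- the invariants -/
def vn (n : ℕ) (D : Word) : ℚ := PowerSeries.coeff n (valD D)

theorem vn_inv (n : ℕ) : IsInvariant (vn n) := fun D E _ h => by
  unfold vn
  rw [valD_isotopic h]

theorem vn_deg (n : ℕ) : DegreeLE n (vn n) := by
  intro D hD S hS hc
  have h1 : ∀ x ∈ S, 0 ≤ x ∧ x < 0 + D.length := by
    intro x hx
    have h2 := hS hx
    simp only [crossingSet, Finset.mem_filter, Finset.mem_range] at h2
    exact ⟨Nat.zero_le _, by omega⟩
  have h3 := Dv_sum D 0 S (fun _ => true) 1 h1 (fun _ => false)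
  rw [hc] at h3
  have h4 : PowerSeries.coeff n ((∑ T ∈ S.powerset, (-1 : PowerSeries ℚ) ^ T.card •
      opD sx sx' (sw' T 0 D) (fun _ => true) 1) (fun _ => false)) = 0 :=
    (PowerSeries.X_pow_dvd_iff.1 h3) n (Nat.lt_succ_self n)
  rw [Finset.sum_apply, map_sum] at h4
  rw [← h4]
  refine Finset.sum_congr rfl fun T _ => ?_
  rw [vn, switchAt_eq, Pi.smul_apply, smul_eq_mul]
  have : ((-1 : PowerSeries ℚ) ^ T.card) = PowerSeries.C ((-1 : ℚ) ^ T.card) := by simp
  rw [this, PowerSeries.coeff_C_mul]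
  show (-1 : ℤ) ^ T.card • PowerSeries.coeff n (valD (sw' T 0 D)) = _
  rw [zsmul_eq_mul]
  push_cast
  rfl

/-! ### the span -/

/-- the exponents are between `-N` and `N` -/
def Sp (N : ℕ) (p : LaurentPolynomial ℤ) : Prop :=
  ∃ q : Polynomial ℤ, q.natDegree ≤ 2 * N ∧ p = Polynomial.toLaurent q * T (-N)

theorem Sp.zero (N : ℕ) : Sp N 0 := ⟨0, by simp, by simp⟩

theorem Sp.add {N : ℕ} {p p' : LaurentPolynomial ℤ} (h : Sp N p) (h' : Sp N p') : Sp N (p + p') := by
  obtain ⟨q, h1, rfl⟩ := h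
  obtain ⟨q', h1', rfl⟩ := h'
  exact ⟨q + q', (Polynomial.natDegree_add_le _ _).trans (max_le h1 h1'), by rw [map_add, add_mul]⟩

theorem Sp.neg {N : ℕ} {p : LaurentPolynomial ℤ} (h : Sp N p) : Sp N (-p) := by
  obtain ⟨q, h1, rfl⟩ := h
  exact ⟨-q, by rwa [Polynomial.natDegree_neg], by rw [map_neg, neg_mul]⟩

theorem Tsplit (N : ℕ) : (T (-(N : ℤ)) : LaurentPolynomial ℤ) = T 1 * T (-((N + 1 : ℕ) : ℤ)) := by
  rw [← T_add]
  congr 1
  push_cast
  ring

theorem Sp.succ {N : ℕ} {p : LaurentPolynomial ℤ} (h : Sp N p) : Sp (N + 1) p := by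
  obtain ⟨q, h1, rfl⟩ := h
  refine ⟨q * Polynomial.X, ?_, ?_⟩
  · have := Polynomial.natDegree_mul_le (p := q) (q := Polynomial.X)
    have h2 : (Polynomial.X : Polynomial ℤ).natDegree ≤ 1 := Polynomial.natDegree_X_le
    omega
  · rw [map_mul, Polynomial.toLaurent_X, mul_assoc, ← Tsplit]

theorem Sp.mono {N M : ℕ} (hNM : N ≤ M) {p : LaurentPolynomial ℤ} (h : Sp N p) : Sp M p := by
  induction hNM with
  | refl => exact h
  | step _ ih => exact ih.succ

theorem Sp.mulT {N : ℕ} {p : LaurentPolynomial ℤ} (h : Sp N p) : Sp (N + 1) (T 1 * p) := by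
  obtain ⟨q, h1, rfl⟩ := h
  refine ⟨q * Polynomial.X ^ 2, ?_, ?_⟩
  · have := Polynomial.natDegree_mul_le (p := q) (q := Polynomial.X ^ 2)
    have h2 : (Polynomial.X ^ 2 : Polynomial ℤ).natDegree ≤ 2 := by
      simp
    omega
  · rw [map_mul, map_pow, Polynomial.toLaurent_X, Tsplit]
    ring

theorem Sp.mulT' {N : ℕ} {p : LaurentPolynomial ℤ} (h : Sp N p) : Sp (N + 1) (T (-1) * p) := by
  obtain ⟨q, h1, rfl⟩ := h
  refine ⟨q, by omega, ?_⟩
  have : (T (-((N + 1 : ℕ) : ℤ)) : LaurentPolynomial ℤ) = T (-1) * T (-(N : ℤ)) := by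
    rw [← T_add]
    congr 1
    push_cast
    ring
  rw [this]
  ring

/-- all values have exponents between `-N` and `N` -/
def Fs (N : ℕ) (f : H838R2.Jones.F (LaurentPolynomial ℤ)) : Prop := ∀ σ, Sp N (f σ)

theorem Fs_B {N i : ℕ} {f : H838R2.Jones.F (LaurentPolynomial ℤ)} (h : Fs N f) :
    Fs (N + 1) (Bl (T (-1)) i f) := by
  intro σ
  rw [Bl_apply]
  refine Sp.add ?_ (h _).succ
  rw [neg_mul]
  exact (h _).mulT'.neg

theorem Fs_D {N i : ℕ} {f : H838R2.Jones.F (LaurentPolynomial ℤ)} (h : Fs N f) :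
    Fs (N + 1) (Dl (T 1) i f) := by
  intro σ
  rw [Dl_apply]
  split_ifs
  · rw [one_mul]; exact (h _).succ
  · rw [neg_mul]
    exact (h _).mulT.neg
  · exact Sp.zero _

theorem Fs_X {N i : ℕ} {c : LaurentPolynomial ℤ × LaurentPolynomial ℤ}
    (hc1 : ∀ {M : ℕ} {p : LaurentPolynomial ℤ}, Sp M p → Sp (M + 2) (c.1 * p))
    (hc2 : ∀ {M : ℕ} {p : LaurentPolynomial ℤ}, Sp M p → Sp (M + 2) (c.2 * p))
    {f : H838R2.Jones.F (LaurentPolynomial ℤ)} (h : Fs N f) :
    Fs (N + 4) (Xl (T 1) (T (-1)) c i f) := by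
  intro σ
  rw [Xl_apply]
  exact Sp.add ((hc1 (h σ)).succ.succ) (hc2 (Fs_D (Fs_B h) σ))

theorem coef_P (b : Bool) {M : ℕ} {p : LaurentPolynomial ℤ} (h : Sp M p) :
    Sp (M + 2) ((cP (T 1) (T (-1)) b).1 * p) ∧ Sp (M + 2) ((cP (T 1) (T (-1)) b).2 * p) ∧
    Sp (M + 2) ((cN (T 1) (T (-1)) b).1 * p) ∧ Sp (M + 2) ((cN (T 1) (T (-1)) b).2 * p) := by
  have h1 : Sp (M + 2) (-T 1 * p) := by rw [neg_mul]; exact h.mulT.neg.succ
  have h2 : Sp (M + 2) (-T 1 ^ 2 * p) := by
    rw [neg_mul, sq, mul_assoc]; exact h.mulT.mulT.neg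
  have h3 : Sp (M + 2) (-T (-1) * p) := by rw [neg_mul]; exact h.mulT'.neg.succ
  have h4 : Sp (M + 2) (-T (-1) ^ 2 * p) := by
    rw [neg_mul, sq, mul_assoc]; exact h.mulT'.mulT'.neg
  cases b
  · exact ⟨h4, h3, h2, h1⟩
  · exact ⟨h1, h2, h3, h4⟩

theorem Fs_P {N : ℕ} (p : Piece) (d : ℕ → Bool) {f : H838R2.Jones.F (LaurentPolynomial ℤ)}
    (h : Fs N f) : Fs (N + 4) (opP (T 1) (T (-1)) (toO p) d f) := by
  cases p with
  | birth i b => exact fun σ => (Fs_B h σ).succ.succ.succ
  | death i => exact fun σ => (Fs_D h σ).succ.succ.succ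
  | pos i => exact Fs_X (fun h => (coef_P _ h).1) (fun h => (coef_P _ h).2.1) h
  | neg i => exact Fs_X (fun h => (coef_P _ h).2.2.1) (fun h => (coef_P _ h).2.2.2) h

theorem Fs_opD (D : Word) (d : ℕ → Bool) {N : ℕ} {f : H838R2.Jones.F (LaurentPolynomial ℤ)}
    (h : Fs N f) : Fs (N + 4 * D.length) (opD (T 1) (T (-1)) D d f) := by
  induction D generalizing d with
  | nil => exact h
  | cons p w ih =>
    have h1 := Fs_P p d (ih (nxt (toO p) d))
    have e : N + 4 * w.length + 4 = N + 4 * (p :: w).length := by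
      rw [List.length_cons]; ring
    rw [e] at h1
    exact h1

theorem Sp_one : Sp 0 (1 : LaurentPolynomial ℤ) := ⟨1, by simp, by simp⟩

theorem Sp_JP (D : Word) : Sp (4 * D.length) (JP D) := by
  have := Fs_opD D (fun _ => true) (N := 0) (f := 1) (fun _ => Sp_one) (fun _ => false)
  rwa [zero_add] at this

/-! ### detection -/

/-- the map on polynomials -/
theorem phi1_poly (q : Polynomial ℤ) : phi1 (Polynomial.toLaurent q) =
    (((q.map (Int.castRingHom ℚ)).comp (Polynomial.X + 1) : Polynomial ℚ) : PowerSeries ℚ) := by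
  unfold phi1
  rw [eval₂_toLaurent]
  have : ((xu : PowerSeries ℚ)) = ((Polynomial.X + 1 : Polynomial ℚ) : PowerSeries ℚ) := by
    simp [xu, sx, add_comm]
  rw [this]
  induction q using Polynomial.induction_on' with
  | add p q hp hq =>
    rw [Polynomial.eval₂_add, hp, hq, Polynomial.map_add, Polynomial.add_comp, Polynomial.coe_add]
  | monomial n a =>
    rw [Polynomial.eval₂_monomial, Polynomial.map_monomial, Polynomial.monomial_comp,
      Polynomial.coe_mul, Polynomial.coe_pow, Polynomial.coe_C]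
    simp

theorem exists_coeff {N : ℕ} {p : LaurentPolynomial ℤ} (h : Sp N p) (hp : p ≠ 0) :
    ∃ m ≤ 2 * N, PowerSeries.coeff m (phi1 p) ≠ 0 := by
  obtain ⟨q, h1, rfl⟩ := h
  have hq : q ≠ 0 := by
    rintro rfl
    simp at hp
  by_contra hcon
  push Not at hcon
  have h2 : (PowerSeries.X : PowerSeries ℚ) ^ (2 * N + 1) ∣
      phi1 (Polynomial.toLaurent q * T (-N)) :=
    PowerSeries.X_pow_dvd_iff.2 fun m hm => hcon m (by omega)
  rw [map_mul] at h2
  have hu : IsUnit (phi1 (T (-N))) := by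
    unfold phi1
    rw [eval₂_T]
    exact Units.isUnit _
  rw [hu.dvd_mul_right, phi1_poly] at h2
  set r : Polynomial ℚ := (q.map (Int.castRingHom ℚ)).comp (Polynomial.X + 1) with hr
  have hdeg : r.natDegree ≤ 2 * N := by
    rw [hr, Polynomial.natDegree_comp]
    have e1 : (Polynomial.X + 1 : Polynomial ℚ).natDegree = 1 := by
      rw [← Polynomial.C_1, Polynomial.natDegree_X_add_C]
    rw [e1, mul_one]
    exact (Polynomial.natDegree_map_le).trans h1
  have h3 : ∀ m < 2 * N + 1, r.coeff m = 0 := by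
    intro m hm
    have := (PowerSeries.X_pow_dvd_iff.1 h2) m hm
    rwa [Polynomial.coeff_coe] at this
  have h4 : r = 0 := by
    ext m
    rw [Polynomial.coeff_zero]
    by_cases hm : m < 2 * N + 1
    · exact h3 m hm
    · exact Polynomial.coeff_eq_zero_of_natDegree_lt (by omega)
  have h5 : q.map (Int.castRingHom ℚ) = 0 := by
    have e : (r.comp (Polynomial.X - 1)) = q.map (Int.castRingHom ℚ) := by
      rw [hr, Polynomial.comp_assoc]
      simp
    rw [← e, h4, Polynomial.zero_comp]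
  have h6 := (Polynomial.map_eq_zero_iff (Int.castRingHom ℚ).injective_int).1 h5
  exact hq h6

/-- **Diagrams with different Jones polynomials** are separated by Vassiliev invariants, with a bound
for the order. -/
theorem separated_of_ne {D E : Word} (h : JP D ≠ JP E) {N : ℕ} (hD : D.length ≤ N)
    (hE : E.length ≤ N) : Separated (8 * N) D E := by
  have h1 : Sp (4 * N) (JP D - JP E) := by
    rw [sub_eq_add_neg]
    exact ((Sp_JP D).mono (by omega)).add ((Sp_JP E).mono (by omega)).neg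
  obtain ⟨m, hm, hne⟩ := exists_coeff h1 (sub_ne_zero.2 h)
  refine ⟨vn m, vn_inv m, Pool.Agent.Y466.FT.DegreeLE.mono (by omega) (vn_deg m), fun hv => hne ?_⟩
  rw [map_sub, map_sub, phi1_JP, phi1_JP]
  exact sub_eq_zero.2 hv

end

end Pool.Agent.K6.H17.LC
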