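import Pool.Agent.K6.H17.LC.Words
import Pool.Agent.K6.H17.LC.Vas

/-!
# Closed braids with three strands, two places of which are occupied by a pure braid
-/

set_option autoImplicit false

namespace Pool.Agent.K6.H17.LC

open Pool.Agent.H835R2.Knot (Piece Word Front Fits run comps Move crossingSet switchAt up dn sw
  Closed IsKnot Step Isotopic IsInvariant DegreeLE)
open Pool.Agent.Y466.FT Pool.Agent.Y466.RW

/-- the squares of the letters -/
def lw (g : Fin 2 × Bool) : Braid := [(g.2, (g.1 : ℕ)), (g.2, (g.1 : ℕ))]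

/-- the pure braid of a word -/
def bw (l : W2) : Braid := (l.map lw).flatten

/-- the word of the unknot -/
def b0 : Braid := [(true, 0), (true, 1)]

/-- the knot of a word -/
def Kn (l : W2) : Word := cl3 (bw l ++ b0)

theorem len_bw (l : W2) : (bw l).length = 2 * l.length := by
  induction l with
  | nil => rfl
  | cons a l ih =>
    have : bw (a :: l) = lw a ++ bw l := rfl
    rw [this, List.length_append, ih, List.length_cons]
    show 2 + 2 * l.length = _
    ring

theorem lt_bw (l : W2) : ∀ x ∈ bw l, x.2 < 2 := by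
  intro x hx
  unfold bw at hx
  obtain ⟨w, hw, hx⟩ := List.mem_flatten.1 hx
  obtain ⟨g, -, rfl⟩ := List.mem_map.1 hw
  have h : x = (g.2, (g.1 : ℕ)) := by
    unfold lw at hx
    simpa using hx
  rw [h]
  exact g.1.2

/-- the lower part -/
def lo : Fin 1 → Word := fun _ => draw b0 ++ bot

/-- the words at the place -/
def xx : Fin 2 × Bool → Fin 1 → Braid := fun s _ => lw s

theorem hom_ofList (l : W2) : (hom xx (FreeMonoid.ofList l) 0).toList = bw l := by
  induction l with
  | nil => rfl
  | cons a l ih =>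
    have e : FreeMonoid.ofList (a :: l) = FreeMonoid.of a * FreeMonoid.ofList l := rfl
    rw [e, map_mul, Pi.mul_apply, FreeMonoid.toList_mul, ih]
    have e2 : hom xx (FreeMonoid.of a) 0 = FreeMonoid.ofList (lw a) := by
      unfold hom
      rw [FreeMonoid.lift_eval_of]
      rfl
    rw [e2]
    rfl

theorem diag_eq (l : W2) : diag top3 lo xx (FreeMonoid.ofList l) = Kn l := by
  unfold diag plug Kn cl3
  rw [List.ofFn_succ, List.ofFn_zero, List.flatten_cons, List.flatten_nil, List.append_nil,
    hom_ofList]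
  show top3 ++ (draw (bw l) ++ (draw b0 ++ bot)) = top3 ++ draw (bw l ++ b0) ++ bot
  unfold draw
  rw [List.map_append]
  simp only [List.append_assoc]

theorem wf : WFam (diag top3 lo xx) := by
  refine wfam _ _ _ ?_ ?_ ?_
  · intro s j
    show perm (lw s) = 1
    unfold perm lw
    simp
  · intro s
    have : FreeMonoid.of s = FreeMonoid.ofList [s] := rfl
    rw [this, diag_eq]
    have key : ∀ s : Fin 2 × Bool, IsKnot (Kn [s]) := by decide +kernel
    exact key s
  · have : (1 : FreeMonoid (Fin 2 × Bool)) = FreeMonoid.ofList [] := rfl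
    rw [this, diag_eq]
    decide +kernel

theorem isKnot_Kn (l : W2) : IsKnot (Kn l) := by
  rw [← diag_eq]
  exact wf.1 _

/-- a braid word at the place -/
def sgl (l : Braid) : Fin 1 → FreeMonoid (Bool × ℕ) := Pi.mulSingle 0 (FreeMonoid.ofList l)

theorem sgl_nil : sgl [] = 1 := Pi.mulSingle_one _

theorem sgl_append (l l' : Braid) : sgl (l ++ l') = sgl l * sgl l' := by
  unfold sgl
  rw [FreeMonoid.ofList_append]
  exact Pi.mulSingle_mul _ _ _

theorem hom_of (g : Fin 2 × Bool) : hom xx (FreeMonoid.of g) =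
    sgl [(g.2, (g.1 : ℕ))] * sgl [(g.2, (g.1 : ℕ))] := by
  rw [← sgl_append]
  unfold hom
  rw [FreeMonoid.lift_eval_of]
  funext i
  have : i = 0 := Subsingleton.elim _ _
  subst this
  unfold sgl
  rw [Pi.mulSingle_eq_same]
  rfl

/-- The value of an invariant does not see cancellations. -/
theorem cancel {A : Type} [AddCommGroup A] {v : Word → A} (hv : IsInvariant v) (l₁ l₂ : W2)
    (x : Fin 2) (b : Bool) : v (Kn (l₁ ++ (x, b) :: (x, !b) :: l₂)) = v (Kn (l₁ ++ l₂)) := by
  have key : ∀ l : W2, v (Kn l) = phi top3 lo v (hom xx (FreeMonoid.ofList l)) := by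
    intro l
    rw [← diag_eq]
    exact (if_pos (wf.1 _)).symm
  have hloc : Loc (wd top3 lo 0) [(b, (x : ℕ)), (!b, (x : ℕ))] [] := by
    refine Loc.can b x ?_
    have h6 : wd top3 lo 0 = 6 := rfl
    rw [h6]
    omega
  have hr : ∀ a c, phi top3 lo v (a * (sgl [(b, (x : ℕ))] * sgl [(!b, (x : ℕ))]) * c) =
      phi top3 lo v (a * c) := by
    intro a c
    have h := iv_phi top3 lo hv (sgl [(b, (x : ℕ)), (!b, (x : ℕ))], sgl []) ⟨0, _, _, hloc, rfl⟩ a c
    rw [sgl_nil, mul_one] at h
    rw [← h, ← sgl_append]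
    rfl
  have e : FreeMonoid.ofList (l₁ ++ (x, b) :: (x, !b) :: l₂) = FreeMonoid.ofList l₁ *
      FreeMonoid.of (x, b) * FreeMonoid.of (x, !b) * FreeMonoid.ofList l₂ := by
    rw [FreeMonoid.ofList_append, FreeMonoid.ofList_cons, FreeMonoid.ofList_cons]
    simp only [mul_assoc]
  rw [key, key, e, FreeMonoid.ofList_append, map_mul, map_mul, map_mul, map_mul, hom_of, hom_of]
  set P := sgl [(b, (x : ℕ))]
  set Q := sgl [(!b, (x : ℕ))]
  set Y := hom xx (FreeMonoid.ofList l₁)
  set Z := hom xx (FreeMonoid.ofList l₂)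
  have s1 := hr (Y * P) (Q * Z)
  have s2 := hr Y Z
  have e1 : Y * (P * P) * (Q * Q) * Z = Y * P * (P * Q) * (Q * Z) := by simp only [mul_assoc]
  have e2 : Y * P * (Q * Z) = Y * (P * Q) * Z := by simp only [mul_assoc]
  exact (congrArg (phi top3 lo v) e1).trans (s1.trans ((congrArg (phi top3 lo v) e2).trans s2))

/-- **The values of a Vassiliev invariant** are a function of finite degree on the free group. -/
theorem vn_value {A : Type} [AddCommGroup A] {v : Word → A} (hv : IsInvariant v) {n : ℕ}
    (hn : DegreeLE n v) : ∃ F : FreeGroup (Fin 2) → A, Vn (n + 1) F ∧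
      ∀ l : W2, F (FreeGroup.mk l) = v (Kn l) := by
  refine ⟨Quot.lift (fun l => v (Kn l)) ?_, ?_, fun l => rfl⟩
  · rintro _ _ ⟨⟩
    exact cancel hv _ _ _ _
  · refine vn_of_dg (f := fun w => v (diag top3 lo xx w)) (wf.2 n v hv hn) fun l => ?_
    show v (Kn l) = _
    rw [← diag_eq]

/-- Words deep in the lower central series are not seen by invariants of small order. -/
theorem not_seen {A : Type} [AddCommGroup A] {v : Word → A} (hv : IsInvariant v) {n : ℕ}
    (hn : DegreeLE n v) (l : W2) (h : Drop A (n + 1) (FreeGroup.mk l)) : v (Kn l) = v (Kn []) := by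
  obtain ⟨F, h1, h2⟩ := vn_value hv hn
  rw [← h2, ← h2]
  exact h.eq h1

end Pool.Agent.K6.H17.LC
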