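import Pool.Agent.K6.H17.LC.Final

/-!
# Knots with few crossings which are not seen by the Vassiliev invariants of order `n`

Oriented knots are given by sliced diagrams (starting library, `Pool.Agent.H835R2.Knot.Defs`): `Word` (lists of
births, deaths and crossings `pos i`, `neg i`), `IsKnot`, `Isotopic` (planar isotopies and the Reidemeister moves),
`IsInvariant v` (`v` is constant on isotopic knot diagrams), `DegreeLE n v` (`v` is of order at most `n`: all
alternating sums over the switches of `n + 1` crossings of a knot diagram vanish), `crossings D` (the number of the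
crossings of the diagram), `circle` (the unknot).  `Pool.Agent.Y466.FT.Defs` (starting library): `Braid`, words in
the letters `(b, i)`, `(true, i)` being the positive and `(false, i)` the negative crossing of the strands `i` and
`i + 1` (counted from `0`).

New (`Pool.Agent.K6.H17.LC.TL3`): `cl3 β = birth 0, birth 1, birth 2, (the letters of β), death 2, death 1, death 0`:
the usual closure of the braid `β` with three strands, whose letters have `i < 2`.

Proof.  In the free group of the squares `a = σ₁²`, `b = σ₂²` let `x₀ = b`, `x₁ = a`, `x_{k+2} = [x_{k+1}, x_k⁻¹]`.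
After cancellations `x_k` has `2 ^ k` letters (`k ≥ 2`), and it is in the term of the lower central series with the
number `fib (k + 1)` (`φ`, the golden ratio, to the power `k - 1` or more).  Inserting a word of `a`, `b` into the braid
`σ₁ σ₂`, whose closure is the unknot, one obtains a knot; the values of an invariant of order at most `n` are a
function on the free group with vanishing `(n + 1)`-fold differences, so that they do not see the terms of the lower
central series after the `n`-th one.  The Jones polynomials of the closures of four conjugates of `x_k`, followed by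
`σ₁ σ₂`, are not all trivial: modulo `5`, at `T = 2`, the reduced Burau (Temperley-Lieb) matrices of
all `x_k` have the trace `3` by Fricke's identity, so they are not the unit matrix.  The Taylor coefficients of the
Jones polynomial at `T = 1` of order at most `8 N` separate diagrams of length `N` with different polynomials.
-/

set_option autoImplicit false

namespace Pool.Agent.K6.H17.LC.LowerBoundOrder

open Pool.Agent.H835R2.Knot Pool.Agent.Y466.FT Pool.Agent.K6.H17.LC

/-- **A lower bound for the order of the Vassiliev invariants which detect knottedness.**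
Let `φ` be the golden ratio; `log 2 / log φ = 1.4404…`.

(1) For every `n ≥ 1` there is a knot, the closure of a braid word `β` with three strands and at most
`33 * n ^ (log 2 / log φ)` crossings, on which every invariant of order at most `n`, with values in any abelian
group, has the same value as on the unknot, and which is nevertheless separated from the unknot by an invariant with
rational values, of order at most `8 * (β.length + 6)`.  (In particular it is not trivial.)

(2) Consequently, if the invariants with rational values of order at most `d` detect the knottedness of all knots with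
at most `c` crossings, then `c < 33 * (d + 1) ^ (log 2 / log φ)`; so the order `d` which is necessary for the knots
with at most `c` crossings grows at least like `c ^ (log φ / log 2)`, `log φ / log 2 = 0.6942…`. -/
theorem result :
    (∀ n : ℕ, 1 ≤ n → ∃ β : Braid, (∀ x ∈ β, x.2 < 2) ∧
      (β.length : ℝ) ≤ 33 * (n : ℝ) ^ (Real.log 2 / Real.log Real.goldenRatio) ∧
      IsKnot (cl3 β) ∧ crossings (cl3 β) = β.length ∧
      (∀ (A : Type) [AddCommGroup A] (v : Word → A), IsInvariant v → DegreeLE n v →
        v (cl3 β) = v circle) ∧
      ∃ w : Word → ℚ, IsInvariant w ∧ DegreeLE (8 * (β.length + 6)) w ∧ w (cl3 β) ≠ w circle) ∧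
    (∀ c d : ℕ, (∀ D : Word, IsKnot D → crossings D ≤ c → ¬ Isotopic D circle →
        ∃ w : Word → ℚ, IsInvariant w ∧ DegreeLE d w ∧ w D ≠ w circle) →
      (c : ℝ) < 33 * ((d : ℝ) + 1) ^ (Real.log 2 / Real.log Real.goldenRatio)) := by
  have key : ∀ n : ℕ, 1 ≤ n → ∃ β : Braid, (∀ x ∈ β, x.2 < 2) ∧
      (β.length : ℝ) ≤ 33 * (n : ℝ) ^ (Real.log 2 / Real.log Real.goldenRatio) ∧
      IsKnot (cl3 β) ∧ crossings (cl3 β) = β.length ∧
      (∀ (A : Type) [AddCommGroup A] (v : Word → A), IsInvariant v → DegreeLE n v →
        v (cl3 β) = v circle) ∧
      ∃ w : Word → ℚ, IsInvariant w ∧ DegreeLE (8 * (β.length + 6)) w ∧ w (cl3 β) ≠ w circle := by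
    intro n hn
    obtain ⟨k, h1, h2, h3⟩ := choice n hn
    obtain ⟨β, b1, b2, b3, b4, b5⟩ := knots k h1
    refine ⟨β, b1, ?_, b3, crossings_cl3 β, b4 n h2, b5⟩
    have : (β.length : ℝ) ≤ ((2 ^ (k + 1) + 10 : ℕ) : ℝ) := by exact_mod_cast b2
    exact this.trans h3
  refine ⟨key, fun c d hcd => ?_⟩
  obtain ⟨β, b1, b2, b3, b4, b5, w, w1, w2, w3⟩ := key (d + 1) (by omega)
  have hlt : c < β.length := by
    by_contra hcon
    push Not at hcon
    have hne : ¬ Isotopic (cl3 β) circle := fun h => w3 (w1 _ _ b3 h)
    obtain ⟨v, v1, v2, v3⟩ := hcd (cl3 β) b3 (by rw [b4]; exact hcon) hne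
    exact v3 (b5 ℚ v v1 (Pool.Agent.Y466.FT.DegreeLE.mono (by omega) v2))
  have h1 : (c : ℝ) < β.length := by exact_mod_cast hlt
  have h2 : ((d + 1 : ℕ) : ℝ) = (d : ℝ) + 1 := by push_cast; rfl
  rw [h2] at b2
  exact h1.trans_le b2

end Pool.Agent.K6.H17.LC.LowerBoundOrder
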