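import Pool.Agent.K6.H17.LC.Mod5
import Pool.Agent.K6.H17.LC.Knot3

/-!
# Knots with few crossings which are not seen by the Vassiliev invariants of order `n`
-/

set_option autoImplicit false

namespace Pool.Agent.K6.H17.LC

open Pool.Agent.H835R2.Knot (Piece Word Front Fits run comps Move crossingSet switchAt up dn sw
  Closed IsKnot Step Isotopic IsInvariant DegreeLE circle)
open Pool.Agent.Y466.FT Pool.Agent.Y466.RW
open Matrix LaurentPolynomial

/-! ### the unknot -/

theorem unknot : Isotopic (Kn []) circle := by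
  have k0 : IsKnot (Kn []) := isKnot_Kn []
  have s1 := isKnot_move (x := [.birth 0 true, .birth 1 true]) (l := [.birth 2 true, .pos 0])
    (r := [.pos 0, .birth 2 true]) (y := [.pos 1, .death 2, .death 1, .death 0])
    (Or.inr (Move.exchange (.pos 0) (.birth 2 true) (by decide))) (by decide +kernel) k0
  have s2 := isKnot_move (x := [.birth 0 true, .birth 1 true, .pos 0]) (l := [.birth 2 true, .pos 1])
    (r := [.birth 1 true, .neg 2]) (y := [.death 2, .death 1, .death 0])
    (Or.inr (Move.slideBirth₂ 1 true)) (by decide +kernel) s1.1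
  have s3 := isKnot_move (x := [.birth 0 true, .birth 1 true, .pos 0, .birth 1 true])
    (l := [.neg 2, .death 2]) (r := [.death 2]) (y := [.death 1, .death 0])
    (Or.inl (Move.firstDeathNeg 2)) (by decide +kernel) s2.1
  have s4 := isKnot_move (x := [.birth 0 true, .birth 1 true, .pos 0])
    (l := [.birth 1 true, .death 2]) (r := []) (y := [.death 1, .death 0])
    (Or.inl (Move.zigzag₁ 1 true)) (by decide +kernel) s3.1
  have s5 := isKnot_move (x := [.birth 0 true]) (l := [.birth 1 true, .pos 0])
    (r := [.birth 0 true, .neg 1]) (y := [.death 1, .death 0])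
    (Or.inr (Move.slideBirth₂ 0 true)) (by decide +kernel) s4.1
  have s6 := isKnot_move (x := [.birth 0 true, .birth 0 true]) (l := [.neg 1, .death 1])
    (r := [.death 1]) (y := [.death 0])
    (Or.inl (Move.firstDeathNeg 1)) (by decide +kernel) s5.1
  have s7 := isKnot_move (x := [.birth 0 true]) (l := [.birth 0 true, .death 1])
    (r := []) (y := [.death 0])
    (Or.inl (Move.zigzag₁ 0 true)) (by decide +kernel) s6.1
  exact ((((((s1.2.trans _ _ _ s2.2).trans _ _ _ s3.2).trans _ _ _ s4.2).trans _ _ _ s5.2).trans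
    _ _ _ s6.2).trans _ _ _ s7.2)

/-! ### the value in the field with five elements -/

section
variable {R : Type} [CommRing R] {s s' : R}

theorem al_append (w w' : Braid) : al s s' (w ++ w') = al s s' w * al s s' w' := by
  simp [al]

theorem rw3_append (w w' : Braid) : rw3 s s' (w ++ w') = rw3 s s' w * rw3 s s' w' := by
  simp [rw3]

/-- the one-dimensional representation of the free group -/
def chi (hs : s * s' = 1) : FreeGroup (Fin 2) →* Rˣ :=
  FreeGroup.lift fun _ => ⟨s ^ 2, s' ^ 2, by rw [← mul_pow, hs, one_pow],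
    by rw [mul_comm, ← mul_pow, hs, one_pow]⟩

theorem al_bw (hs : s * s' = 1) (l : W2) : al s s' (bw l) = (chi hs (FreeGroup.mk l) : Rˣ) := by
  induction l with
  | nil =>
    have : (FreeGroup.mk [] : FreeGroup (Fin 2)) = 1 := rfl
    rw [this, map_one]
    rfl
  | cons g l ih =>
    have e : (FreeGroup.mk (g :: l) : FreeGroup (Fin 2)) = FreeGroup.mk [g] * FreeGroup.mk l := by
      rw [FreeGroup.mul_mk]; rfl
    have e2 : bw (g :: l) = lw g ++ bw l := rfl
    rw [e, map_mul, e2, al_append, ih, Units.val_mul]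
    congr 1
    obtain ⟨i, b⟩ := g
    cases b
    · have h1 : (FreeGroup.mk [(i, false)] : FreeGroup (Fin 2)) = (FreeGroup.of i)⁻¹ := rfl
      rw [h1, map_inv]
      simp [al, lw, lc, chi, sq]
    · have h1 : (FreeGroup.mk [(i, true)] : FreeGroup (Fin 2)) = FreeGroup.of i := rfl
      rw [h1]
      simp [al, lw, lc, chi, sq]

theorem rw3_map {S : Type} [CommRing S] (φ : R →+* S) (w : Braid) :
    (rw3 s s' w).map φ = rw3 (φ s) (φ s') w := by
  induction w with
  | nil => simp [rw3]
  | cons l w ih =>
    have e : ∀ {Q : Type} [CommRing Q] (t t' : Q), rw3 t t' (l :: w) = rl t t' l * rw3 t t' w := by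
      intro Q _ t t'
      simp [rw3]
    rw [e, e, Matrix.map_mul, ih]
    congr 1
    obtain ⟨b, i⟩ := l
    unfold rl MU lc dl
    ext x y
    cases b <;> by_cases h : i = 0 <;> fin_cases x <;> fin_cases y <;> simp [h]

end

/-- the matrices in the field with five elements -/
theorem rw3_five (l : W2) : rw3 (2 : ZMod 5) 3 (bw l) = (Phi (FreeGroup.mk l)).1 := by
  induction l with
  | nil =>
    have : (FreeGroup.mk [] : FreeGroup (Fin 2)) = 1 := rfl
    rw [this, map_one]
    rfl
  | cons g l ih =>
    have e : (FreeGroup.mk (g :: l) : FreeGroup (Fin 2)) = FreeGroup.mk [g] * FreeGroup.mk l := by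
      rw [FreeGroup.mul_mk]; rfl
    have e2 : bw (g :: l) = lw g ++ bw l := rfl
    rw [e, map_mul, e2, rw3_append, ih]
    have e3 : rw3 (2 : ZMod 5) 3 (lw g) = (Phi (FreeGroup.mk [g])).1 := by
      obtain ⟨i, b⟩ := g
      fin_cases i <;> cases b
      · have h1 : Phi (FreeGroup.mk [((0 : Fin 2), false)]) = A5⁻¹ := by
          show Phi (FreeGroup.of 0)⁻¹ = _
          rw [map_inv]; simp [Phi]
        show _ = (Phi (FreeGroup.mk [((0 : Fin 2), false)])).1
        rw [h1]
        decide +kernel
      · have h1 : Phi (FreeGroup.mk [((0 : Fin 2), true)]) = A5 := by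
          show Phi (FreeGroup.of 0) = _
          simp [Phi]
        show _ = (Phi (FreeGroup.mk [((0 : Fin 2), true)])).1
        rw [h1]
        decide +kernel
      · have h1 : Phi (FreeGroup.mk [((1 : Fin 2), false)]) = B5⁻¹ := by
          show Phi (FreeGroup.of 1)⁻¹ = _
          rw [map_inv]; simp [Phi]
        show _ = (Phi (FreeGroup.mk [((1 : Fin 2), false)])).1
        rw [h1]
        decide +kernel
      · have h1 : Phi (FreeGroup.mk [((1 : Fin 2), true)]) = B5 := by
          show Phi (FreeGroup.of 1) = _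
          simp [Phi]
        show _ = (Phi (FreeGroup.mk [((1 : Fin 2), true)])).1
        rw [h1]
        decide +kernel
    rw [e3]
    rfl

theorem b0_five : rw3 (2 : ZMod 5) 3 b0 = M5 := by decide +kernel

theorem dl_ne : dl (T 1 : LaurentPolynomial ℤ) (T (-1)) ≠ 0 := by
  intro h
  have h1 := congrArg (fun p => PowerSeries.constantCoeff (phi1 p)) h
  simp only [dl, map_neg, map_add, phi1_T, phi1_T', Pool.Agent.H838R2.SL.cc_sx,
    Pool.Agent.H838R2.SL.cc_sx', map_zero] at h1
  norm_num at h1

/-- If the trace in the field with five elements is not that of the unknot, then the Jones polynomial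
is not trivial. -/
theorem JP_ne {l : W2} (h1 : ∀ {H : Type} [CommGroup H] (χ : FreeGroup (Fin 2) →* H),
      χ (FreeGroup.mk l) = 1) (h2 : (M5 * (Phi (FreeGroup.mk l)).1).trace ≠ 4) :
    JP (Kn l) ≠ JP circle := by
  intro h
  have hw : ∀ x ∈ bw l ++ b0, x.2 < 2 := by
    intro x hx
    rcases List.mem_append.1 hx with hx | hx
    · exact lt_bw l x hx
    · have h0 : ∀ y ∈ b0, y.2 < 2 := by decide
      exact h0 x hx
  have e1 : JP (Kn l) = dl (T 1 : LaurentPolynomial ℤ) (T (-1)) *
      ((dl (T 1 : LaurentPolynomial ℤ) (T (-1)) ^ 2 - 2) * T 1 ^ 2 +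
        (rw3 (T 1 : LaurentPolynomial ℤ) (T (-1)) (bw l ++ b0)).trace) := by
    unfold JP Kn
    rw [val_cl3 hT _ hw]
    have : al (T 1 : LaurentPolynomial ℤ) (T (-1)) (bw l ++ b0) = T 1 ^ 2 := by
      rw [al_append, al_bw hT, h1, Units.val_one, one_mul]
      simp [al, b0, lc, sq]
    rw [this]
    simp
  have e2 : JP circle = dl (T 1 : LaurentPolynomial ℤ) (T (-1)) * 1 := by
    unfold JP
    rw [val_circle]
    simp
  rw [e1, e2] at h
  have h3 := mul_left_cancel₀ dl_ne h
  have h4 := congrArg phi5 h3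
  have e3 : phi5 ((rw3 (T 1 : LaurentPolynomial ℤ) (T (-1)) (bw l ++ b0)).trace) =
      (rw3 (2 : ZMod 5) 3 (bw l ++ b0)).trace := by
    rw [← phi5_T, ← phi5_T', ← rw3_map phi5, Matrix.trace_fin_two, Matrix.trace_fin_two, map_add]
    rfl
  rw [map_add, e3, rw3_append, rw3_five, b0_five, Matrix.trace_mul_comm] at h4
  simp only [dl, map_mul, map_sub, map_pow, map_neg, map_add, phi5_T, phi5_T', map_one,
    map_ofNat] at h4
  apply h2
  have h5 : ((-(2 + 3)) ^ 2 - 2) * 2 ^ 2 = (2 : ZMod 5) := by decide
  rw [h5] at h4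
  revert h4
  generalize (M5 * (Phi (FreeGroup.mk l)).1).trace = t
  intro h4
  have h6 : t = 1 - 2 := by linear_combination h4
  exact h6.trans (by decide)

end Pool.Agent.K6.H17.LC
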