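import Pool.Agent.K6.H17.LC.Words

/-!
# The commutators are not trivial in `SL₂` of the field with five elements
-/

set_option autoImplicit false

namespace Pool.Agent.K6.H17.LC

open Matrix

/-- the image of the square of the first generator -/
def A5 : SpecialLinearGroup (Fin 2) (ZMod 5) := ⟨!![4, 1; 0, 4], by decide⟩
/-- the image of the square of the second generator -/
def B5 : SpecialLinearGroup (Fin 2) (ZMod 5) := ⟨!![4, 0; 1, 4], by decide⟩
/-- the image of the product of the two generators -/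
def M5 : Matrix (Fin 2) (Fin 2) (ZMod 5) := !![0, 3; 3, 4]

/-- the homomorphism -/
def Phi : FreeGroup (Fin 2) →* SpecialLinearGroup (Fin 2) (ZMod 5) := FreeGroup.lift ![A5, B5]

theorem tr_xg (k : ℕ) : tr (Phi (xg k)) = 3 ∧ tr (Phi (xg (k + 1))) = 3 ∧
    tr (Phi (xg (k + 2))) = 3 := by
  induction k with
  | zero => decide +kernel
  | succ k ih =>
    refine ⟨ih.2.1, ih.2.2, ?_⟩
    have h1 : xg (k + 3) = xg (k + 2) * (xg (k + 1))⁻¹ * (xg (k + 2))⁻¹ * ((xg (k + 1))⁻¹)⁻¹ :=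
      xg_add_two (k + 1)
    have h2 := ih.2.2
    rw [xg_add_two] at h2
    show tr (Phi (xg (k + 3))) = 3
    rw [h1, xg_add_two k]
    simp only [_root_.map_mul, _root_.map_inv] at h2 ⊢
    rw [tr_next, h2, ih.2.1]
    decide

theorem phi_ne (k : ℕ) : Phi (xg k) ≠ 1 := by
  intro h
  have h1 := (tr_xg k).1
  rw [h] at h1
  revert h1
  decide

theorem conj4_aux : ∀ a b c d : ZMod 5, (M5 * !![a, b; c, d]).trace = 4 →
    (M5 * (A5.1 * !![a, b; c, d] * A5⁻¹.1)).trace = 4 →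
    (M5 * (B5.1 * !![a, b; c, d] * B5⁻¹.1)).trace = 4 →
    (M5 * ((A5 * B5).1 * !![a, b; c, d] * (A5 * B5)⁻¹.1)).trace = 4 →
    a = 1 ∧ b = 0 ∧ c = 0 ∧ d = 1 := by
  decide +kernel

/-- one of four conjugates changes the trace -/
theorem conj4 (X : Matrix (Fin 2) (Fin 2) (ZMod 5))
    (h0 : (M5 * X).trace = 4) (h1 : (M5 * (A5.1 * X * A5⁻¹.1)).trace = 4)
    (h2 : (M5 * (B5.1 * X * B5⁻¹.1)).trace = 4)
    (h3 : (M5 * ((A5 * B5).1 * X * (A5 * B5)⁻¹.1)).trace = 4) : X = 1 := by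
  have e : X = !![X 0 0, X 0 1; X 1 0, X 1 1] := Matrix.eta_fin_two X
  rw [e] at h0 h1 h2 h3
  obtain ⟨ha, hb, hc, hd⟩ := conj4_aux _ _ _ _ h0 h1 h2 h3
  rw [e, ha, hb, hc, hd]
  exact Matrix.one_fin_two.symm

/-- For every `k` one of four conjugates of `x_k` changes the trace. -/
theorem exists_conj (k : ℕ) : ∃ h : FreeGroup (Fin 2),
    h ∈ [1, FreeGroup.of 0, FreeGroup.of 1, FreeGroup.of 0 * FreeGroup.of 1] ∧
    (M5 * (Phi (h * xg k * h⁻¹)).1).trace ≠ 4 := by
  by_contra hcon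
  push Not at hcon
  have eA : Phi (FreeGroup.of 0) = A5 := by simp [Phi]
  have eB : Phi (FreeGroup.of 1) = B5 := by simp [Phi]
  have h0 := hcon 1 (by simp)
  have h1 := hcon (FreeGroup.of 0) (by simp)
  have h2 := hcon (FreeGroup.of 1) (by simp)
  have h3 := hcon (FreeGroup.of 0 * FreeGroup.of 1) (by simp)
  rw [one_mul, inv_one, mul_one] at h0
  rw [_root_.map_mul, _root_.map_mul, _root_.map_inv, eA] at h1
  rw [_root_.map_mul, _root_.map_mul, _root_.map_inv, eB] at h2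
  rw [_root_.map_mul, _root_.map_mul, _root_.map_inv, _root_.map_mul, eA, eB] at h3
  exact phi_ne k (Subtype.ext (conj4 _ h0 h1 h2 h3))

end Pool.Agent.K6.H17.LC
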