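import Pool.Agent.H838R2.SL.T6
import Pool.Agent.Y466.FT.Defs

/-!
# The state model on closed braids with three strands
-/

set_option autoImplicit false

namespace Pool.Agent.K6.H17.LC

open Pool.Agent.H835R2.Knot (Piece Word Front Fits run comps Move crossingSet switchAt up dn sw)
open Pool.Agent.H838R2.SL
open Pool.Agent.H838R2.Jones
open Pool.Agent.Helper454.Wh (insD delD swpD noD OPiece OWord)
open Pool.Agent.Y466.FT (Braid draw piece)
open Matrix

/-- the lower part of the closure of a braid with three strands -/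
def bot : Word := [.death 2, .death 1, .death 0]
/-- the upper part of the closure of a braid with three strands -/
def top3 : Word := [.birth 0 true, .birth 1 true, .birth 2 true]
/-- the closure of a braid with three strands -/
def cl3 (w : Braid) : Word := top3 ++ draw w ++ bot

section
variable {R : Type} [CommRing R] (s s' : R)

/-- the value of the loop -/
def dl : R := -(s + s')

/-- the coefficients of a letter -/
def lc (b : Bool) : R × R := if b then (-s, -s ^ 2) else (-s', -s' ^ 2)

/-- the directions of the six strands -/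
def d3 : ℕ → Bool := fun p => if p < 3 then true else if p < 6 then false else true

theorem d3_eq : insD 2 true (insD 1 true (insD 0 true (fun _ => true))) = d3 := by
  funext p
  simp only [insD, d3]
  split_ifs <;> first | rfl | (exfalso; omega)

theorem swp_d3 {i : ℕ} (h : i < 2) : swpD i d3 = d3 := by
  funext p
  simp only [swpD, d3]
  split_ifs <;> first | rfl | (exfalso; omega)

/-- the two generators -/
def UU (i : ℕ) (f : H838R2.Jones.F R) : H838R2.Jones.F R := Dl s i (Bl s' i f)

/-- the function of the lower part -/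
def yy : H838R2.Jones.F R := Dl s 2 (Dl s 1 (Dl s 0 1))

/-- the combination of the five diagrams -/
def lin (t : Fin 5 → R) : H838R2.Jones.F R :=
  t 0 • yy s + t 1 • UU s s' 0 (yy s) + t 2 • UU s s' 1 (yy s) +
    t 3 • UU s s' 0 (UU s s' 1 (yy s)) + t 4 • UU s s' 1 (UU s s' 0 (yy s))

theorem UU_add (i : ℕ) (f g : H838R2.Jones.F R) : UU s s' i (f + g) = UU s s' i f + UU s s' i g := by
  simp only [UU, map_add]

theorem UU_smul (i : ℕ) (c : R) (f : H838R2.Jones.F R) : UU s s' i (c • f) = c • UU s s' i f := by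
  simp only [UU, map_smul]

theorem UU_sq (i : ℕ) (f : H838R2.Jones.F R) : UU s s' i (UU s s' i f) = dl s s' • UU s s' i f := by
  unfold UU dl
  rw [circ, map_smul]

variable {s s'}

theorem UVU (hs : s * s' = 1) (f : H838R2.Jones.F R) :
    UU s s' 0 (UU s s' 1 (UU s s' 0 f)) = UU s s' 0 f := by
  unfold UU
  rw [zigB hs 0 (Bl s' 0 f), zigA hs 0 (Bl s' 0 f)]

theorem VUV (hs : s * s' = 1) (f : H838R2.Jones.F R) :
    UU s s' 1 (UU s s' 0 (UU s s' 1 f)) = UU s s' 1 f := by
  unfold UU
  rw [zigA hs 0 (Bl s' 1 f), zigB hs 0 (Bl s' 1 f)]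

/-- multiplication with a generator from the left -/
def mU (δ : R) (t : Fin 5 → R) : Fin 5 → R := ![0, t 0 + δ * t 1 + t 4, 0, t 2 + δ * t 3, 0]
/-- multiplication with a generator from the left -/
def mV (δ : R) (t : Fin 5 → R) : Fin 5 → R := ![0, 0, t 0 + δ * t 2 + t 3, 0, t 1 + δ * t 4]

theorem U_lin (hs : s * s' = 1) (t : Fin 5 → R) :
    UU s s' 0 (lin s s' t) = lin s s' (mU (dl s s') t) := by
  unfold lin mU
  simp only [UU_add, UU_smul, UU_sq, UVU hs]
  simp only [Matrix.cons_val_zero, Matrix.cons_val_one, Matrix.cons_val]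
  module

theorem V_lin (hs : s * s' = 1) (t : Fin 5 → R) :
    UU s s' 1 (lin s s' t) = lin s s' (mV (dl s s') t) := by
  unfold lin mV
  simp only [UU_add, UU_smul, UU_sq, VUV hs]
  simp only [Matrix.cons_val_zero, Matrix.cons_val_one, Matrix.cons_val]
  module

variable (s s')

/-- the matrices of the generators -/
def MU (i : ℕ) : Matrix (Fin 2) (Fin 2) R :=
  if i = 0 then !![dl s s', 1; 0, 0] else !![0, 0; 1, dl s s']

/-- the matrix of a combination of the five diagrams -/
def pm (δ : R) (t : Fin 5 → R) : Matrix (Fin 2) (Fin 2) R :=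
  !![t 0 + δ * t 1 + t 3, t 1 + δ * t 3; t 2 + δ * t 4, t 0 + δ * t 2 + t 4]

theorem pm_mU (t : Fin 5 → R) : pm (dl s s') (mU (dl s s') t) = MU s s' 0 * pm (dl s s') t := by
  ext i j
  fin_cases i <;> fin_cases j <;> simp [pm, mU, MU, Matrix.mul_apply, Fin.sum_univ_two] <;> ring

theorem pm_mV (t : Fin 5 → R) : pm (dl s s') (mV (dl s s') t) = MU s s' 1 * pm (dl s s') t := by
  ext i j
  fin_cases i <;> fin_cases j <;> simp [pm, mV, MU, Matrix.mul_apply, Fin.sum_univ_two] <;> ring

/-- the matrix of a letter -/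
def rl (l : Bool × ℕ) : Matrix (Fin 2) (Fin 2) R :=
  (lc s s' l.1).1 • 1 + (lc s s' l.1).2 • MU s s' l.2

/-- the matrix of a braid word -/
def rw3 (w : Braid) : Matrix (Fin 2) (Fin 2) R := (w.map (rl s s')).prod

/-- the one-dimensional representation -/
def al (w : Braid) : R := (w.map fun l => (lc s s' l.1).1).prod

variable {s s'}

theorem pm_add (δ : R) (t u : Fin 5 → R) : pm δ (t + u) = pm δ t + pm δ u := by
  ext i j
  fin_cases i <;> fin_cases j <;> simp [pm] <;> ring

theorem pm_smul (δ c : R) (t : Fin 5 → R) : pm δ (c • t) = c • pm δ t := by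
  ext i j
  fin_cases i <;> fin_cases j <;> simp [pm] <;> ring

theorem lin_add (t u : Fin 5 → R) : lin s s' (t + u) = lin s s' t + lin s s' u := by
  unfold lin
  simp only [Pi.add_apply]
  module

theorem lin_smul (c : R) (t : Fin 5 → R) : lin s s' (c • t) = c • lin s s' t := by
  unfold lin
  simp only [Pi.smul_apply, smul_eq_mul]
  module

theorem op_letter (l : Bool × ℕ) (h : l.2 < 2) (f : H838R2.Jones.F R) :
    opP s s' (toO (piece l)) d3 f = (lc s s' l.1).1 • f + (lc s s' l.1).2 • UU s s' l.2 f := by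
  obtain ⟨b, i⟩ := l
  have h : i < 2 := h
  have e : (d3 i == d3 (i + 1)) = true := by
    simp only [d3]
    rw [if_pos (by omega), if_pos (by omega)]
    rfl
  cases b
  · show Xl s s' (cN s s' (d3 i == d3 (i + 1))) i f = _
    rw [e, Xl_apply]
    rfl
  · show Xl s s' (cP s s' (d3 i == d3 (i + 1))) i f = _
    rw [e, Xl_apply]
    rfl

theorem nxt_letter (l : Bool × ℕ) (h : l.2 < 2) : nxt (toO (piece l)) d3 = d3 := by
  obtain ⟨b, i⟩ := l
  cases b
  · exact swp_d3 h
  · exact swp_d3 h

/-- the operator of a braid word -/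
theorem op_word (hs : s * s' = 1) (w : Braid) (hw : ∀ l ∈ w, l.2 < 2) :
    ∃ t : Fin 5 → R, opD s s' (draw w ++ bot) d3 1 = lin s s' t ∧ pm (dl s s') t = rw3 s s' w ∧
      t 0 = al s s' w := by
  induction w with
  | nil =>
    refine ⟨![1, 0, 0, 0, 0], ?_, ?_, ?_⟩
    · show Dl s 2 (Dl s 1 (Dl s 0 1)) = _
      unfold lin yy
      simp
    · ext i j
      fin_cases i <;> fin_cases j <;> simp [pm, rw3]
    · simp [al]
  | cons l w ih =>
    obtain ⟨t, h1, h2, h3⟩ := ih fun l' h' => hw l' (List.mem_cons_of_mem _ h')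
    have hl : l.2 < 2 := hw l List.mem_cons_self
    have e1 : opD s s' (draw (l :: w) ++ bot) d3 1 =
        (lc s s' l.1).1 • lin s s' t + (lc s s' l.1).2 • UU s s' l.2 (lin s s' t) := by
      rw [← h1, ← op_letter l hl]
      show opP s s' (toO (piece l)) d3 (opD s s' (draw w ++ bot) (nxt (toO (piece l)) d3) 1) = _
      rw [nxt_letter l hl]
    have e2 : rw3 s s' (l :: w) = rl s s' l * rw3 s s' w := by simp [rw3]
    have e3 : al s s' (l :: w) = (lc s s' l.1).1 * al s s' w := by simp [al]
    obtain ⟨b, i⟩ := l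
    have hi : i < 2 := hl
    rcases (show i = 0 ∨ i = 1 by omega) with rfl | rfl
    · refine ⟨(lc s s' b).1 • t + (lc s s' b).2 • mU (dl s s') t, ?_, ?_, ?_⟩
      · rw [e1, lin_add, lin_smul, lin_smul, ← U_lin hs]
      · rw [pm_add, pm_smul, pm_smul, pm_mU, e2, ← h2, rl, add_mul, Matrix.smul_mul,
          Matrix.smul_mul, one_mul]
      · rw [e3, ← h3]
        simp [mU]
    · refine ⟨(lc s s' b).1 • t + (lc s s' b).2 • mV (dl s s') t, ?_, ?_, ?_⟩
      · rw [e1, lin_add, lin_smul, lin_smul, ← V_lin hs]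
      · rw [pm_add, pm_smul, pm_smul, pm_mV, e2, ← h2, rl, add_mul, Matrix.smul_mul,
          Matrix.smul_mul, one_mul]
      · rw [e3, ← h3]
        simp [mV]

end

end Pool.Agent.K6.H17.LC
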