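import Pool.Agent.K6.H17.LC.TL3
import Pool.Agent.Y466.FT.Fam

/-!
# The Jones polynomial of sliced diagrams as a Laurent polynomial, and Vassiliev invariants
-/

set_option autoImplicit false

namespace Pool.Agent.K6.H17.LC

open Pool.Agent.H835R2.Knot (Piece Word Front Fits run comps Move crossingSet switchAt up dn sw
  Closed IsKnot Step Isotopic IsInvariant DegreeLE)
open Pool.Agent.H838R2.SL
open Pool.Agent.H838R2.Jones
open Pool.Agent.Helper454.Wh (insD delD swpD noD OPiece OWord)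
open Pool.Agent.Y466.FT (Braid draw piece Separated)
open Matrix LaurentPolynomial

/-! ### closed braids -/

section
variable {R : Type} [CommRing R] {s s' : R}

theorem cc (i : ℕ) (f : H838R2.Jones.F R) : Bl s' i (Dl s i f) = dl s s' • f := circ i f
theorem h02 (f : H838R2.Jones.F R) : Bl s' 0 (Bl s' 0 f) = Bl s' 0 (Bl s' 2 f) :=
  (BB s' (le_refl 0) f).symm
theorem h11 (f : H838R2.Jones.F R) : Bl s' 1 (Bl s' 1 f) = Bl s' 1 (Bl s' 3 f) :=
  (BB s' (le_refl 1) f).symm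
theorem b2d0 (f : H838R2.Jones.F R) : Bl s' 2 (Dl s 0 f) = Dl s 0 (Bl s' 0 f) :=
  (DB s s' (le_refl 0) f).symm
theorem b0d2 (f : H838R2.Jones.F R) : Bl s' 0 (Dl s 2 f) = Dl s 0 (Bl s' 0 f) :=
  BD s s' (le_refl 0) f
theorem zA (hs : s * s' = 1) (f : H838R2.Jones.F R) : Bl s' 0 (Dl s 1 f) = f := zigA hs 0 f
theorem zA1 (hs : s * s' = 1) (f : H838R2.Jones.F R) : Bl s' 1 (Dl s 2 f) = f := zigA hs 1 f
theorem zB (hs : s * s' = 1) (f : H838R2.Jones.F R) : Bl s' 1 (Dl s 0 f) = f := zigB hs 0 f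
theorem zB1 (hs : s * s' = 1) (f : H838R2.Jones.F R) : Bl s' 2 (Dl s 1 f) = f := zigB hs 1 f
theorem zB2 (hs : s * s' = 1) (f : H838R2.Jones.F R) : Bl s' 3 (Dl s 2 f) = f := zigB hs 2 f

theorem base1 : Bl s' 0 (Bl s' 1 (Bl s' 2 (yy s))) = (dl s s' ^ 3) • (1 : H838R2.Jones.F R) := by
  unfold yy
  rw [cc 2, map_smul, cc 1, map_smul, map_smul, cc 0]
  simp only [smul_smul]
  congr 1; ring

theorem base2 (hs : s * s' = 1) : Bl s' 0 (Bl s' 1 (Bl s' 2 (UU s s' 0 (yy s)))) =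
    (dl s s' ^ 2) • (1 : H838R2.Jones.F R) := by
  unfold UU
  rw [b2d0, zB hs, h02 (Bl s' 0 (yy s)), ← h02, h02 (yy s)]
  unfold yy
  rw [cc 2, map_smul, map_smul, zA hs, cc 0, smul_smul, sq]

theorem base3 (hs : s * s' = 1) : Bl s' 0 (Bl s' 1 (Bl s' 2 (UU s s' 1 (yy s)))) =
    (dl s s' ^ 2) • (1 : H838R2.Jones.F R) := by
  unfold UU
  rw [zB1 hs, h11]
  unfold yy
  rw [zB2 hs, cc 1, map_smul, cc 0, smul_smul, sq]

theorem base4 (hs : s * s' = 1) : Bl s' 0 (Bl s' 1 (Bl s' 2 (UU s s' 0 (UU s s' 1 (yy s))))) =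
    dl s s' • (1 : H838R2.Jones.F R) := by
  unfold UU
  rw [zA hs, b2d0, zB hs]
  unfold yy
  rw [zA1 hs, zA hs, cc 0]

theorem base5 (hs : s * s' = 1) : Bl s' 0 (Bl s' 1 (Bl s' 2 (UU s s' 1 (UU s s' 0 (yy s))))) =
    dl s s' • (1 : H838R2.Jones.F R) := by
  unfold UU
  rw [zB hs, zB1 hs]
  unfold yy
  rw [b0d2, zA hs, zB hs, cc 0]

theorem base_lin (hs : s * s' = 1) (t : Fin 5 → R) :
    Bl s' 0 (Bl s' 1 (Bl s' 2 (lin s s' t))) =
      (dl s s' * ((dl s s' ^ 2 - 2) * t 0 + (pm (dl s s') t).trace)) • (1 : H838R2.Jones.F R) := by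
  unfold lin
  simp only [map_add, map_smul, base1, base2 hs, base3 hs, base4 hs, base5 hs]
  rw [Matrix.trace_fin_two]
  simp only [pm, Matrix.of_apply, Matrix.cons_val_zero, Matrix.cons_val_one, Matrix.cons_val', Matrix.cons_val_fin_one]
  module

/-- **The value of a closed braid with three strands.** -/
theorem val_cl3 (hs : s * s' = 1) (w : Braid) (hw : ∀ l ∈ w, l.2 < 2) :
    opD s s' (cl3 w) (fun _ => true) 1 =
      (dl s s' * ((dl s s' ^ 2 - 2) * al s s' w + (rw3 s s' w).trace)) •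
        (1 : H838R2.Jones.F R) := by
  obtain ⟨t, h1, h2, h3⟩ := op_word hs w hw
  have e : opD s s' (cl3 w) (fun _ => true) 1 =
      Bl s' 0 (Bl s' 1 (Bl s' 2 (opD s s' (draw w ++ bot) d3 1))) := by
    rw [← d3_eq]
    rfl
  rw [e, h1, base_lin hs, h2, h3]

/-- The value of the circle. -/
theorem val_circle : opD s s' H835R2.Knot.circle (fun _ => true) 1 =
    dl s s' • (1 : H838R2.Jones.F R) := by
  show Bl s' 0 (Dl s 0 1) = _
  exact cc 0 _

/-! ### ring homomorphisms -/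

variable {S : Type} [CommRing S]

theorem opP_map (φ : R →+* S) (p : Piece) (d : ℕ → Bool) (f : H838R2.Jones.F R) :
    opP (φ s) (φ s') (toO p) d (fun σ => φ (f σ)) = fun σ => φ (opP s s' (toO p) d f σ) := by
  have hB : ∀ i (f : H838R2.Jones.F R), Bl (φ s') i (fun σ => φ (f σ)) = fun σ => φ (Bl s' i f σ) := by
    intro i f
    funext σ
    rw [Bl_apply, Bl_apply]
    simp
  have hD : ∀ i (f : H838R2.Jones.F R), Dl (φ s) i (fun σ => φ (f σ)) = fun σ => φ (Dl s i f σ) := by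
    intro i f
    funext σ
    rw [Dl_apply, Dl_apply]
    split_ifs <;> simp
  have hX : ∀ (c : R × R) i (f : H838R2.Jones.F R),
      Xl (φ s) (φ s') (φ c.1, φ c.2) i (fun σ => φ (f σ)) = fun σ => φ (Xl s s' c i f σ) := by
    intro c i f
    rw [Xl_apply, hB, hD]
    funext σ
    rw [Xl_apply]
    simp
  have hP : ∀ b, cP (φ s) (φ s') b = (φ (cP s s' b).1, φ (cP s s' b).2) := by
    intro b; cases b <;> simp [cP]
  have hN : ∀ b, cN (φ s) (φ s') b = (φ (cN s s' b).1, φ (cN s s' b).2) := by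
    intro b; cases b <;> simp [cN]
  cases p with
  | birth i b => exact hB i f
  | death i => exact hD i f
  | pos i =>
    show Xl (φ s) (φ s') (cP (φ s) (φ s') _) i _ = _
    rw [hP, hX]
    rfl
  | neg i =>
    show Xl (φ s) (φ s') (cN (φ s) (φ s') _) i _ = _
    rw [hN, hX]
    rfl

theorem opD_map (φ : R →+* S) (D : Word) (d : ℕ → Bool) (f : H838R2.Jones.F R) :
    opD (φ s) (φ s') D d (fun σ => φ (f σ)) = fun σ => φ (opD s s' D d f σ) := by
  induction D generalizing d with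
  | nil => rfl
  | cons p w ih =>
    show opP (φ s) (φ s') (toO p) d (opD (φ s) (φ s') w (nxt (toO p) d) _) = _
    rw [ih, opP_map]
    rfl

end

end Pool.Agent.K6.H17.LC
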