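import Pool.Agent.K6.H17.LC.Grp

/-!
# Short words deep in the lower central series of the free group with two generators

`x_0 = b`, `x_1 = a`, `x_{k+2} = [x_{k+1}, x_k⁻¹]`; after the evident cancellations `x_k` is a word with
`2 ^ k` letters (`k ≥ 2`), and its depth in the lower central series is at least a Fibonacci number
(the construction of Elkasapy and Thom).
-/

set_option autoImplicit false

namespace Pool.Agent.K6.H17.LC

open FreeGroup

/-- words in two generators and their inverses -/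
abbrev W2 : Type := List (Fin 2 × Bool)

/-- the words `x_k`, `x_{k+1}` and `x_{k+1}⁻¹ x_k` -/
def XZ : ℕ → W2 × W2 × W2
  | 0 => ([(1, true)], [(0, true)], invRev [(0, true)] ++ [(1, true)])
  | k + 1 => ((XZ k).2.1, (XZ k).2.1 ++ invRev (XZ k).1 ++ (XZ k).2.2, invRev (XZ k).2.2 ++ (XZ k).1)

/-- the word `x_k` -/
def xw (k : ℕ) : W2 := (XZ k).1

theorem xw_succ (k : ℕ) : xw (k + 1) = (XZ k).2.1 := rfl

theorem len_aux (k : ℕ) : (XZ (k + 2)).1.length = 2 ^ (k + 2) ∧ (XZ (k + 2)).2.1.length = 2 ^ (k + 3) ∧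
    (XZ (k + 2)).2.2.length = 2 ^ (k + 2) := by
  induction k with
  | zero => decide
  | succ k ih =>
    obtain ⟨h1, h2, h3⟩ := ih
    have e : XZ (k + 1 + 2) = ((XZ (k + 2)).2.1, (XZ (k + 2)).2.1 ++ invRev (XZ (k + 2)).1 ++
      (XZ (k + 2)).2.2, invRev (XZ (k + 2)).2.2 ++ (XZ (k + 2)).1) := rfl
    rw [e]
    simp only [List.length_append, invRev_length, h1, h2, h3]
    refine ⟨?_, ?_, ?_⟩ <;> (simp only [pow_succ]; try omega)

theorem len_xw (k : ℕ) : (xw (k + 2)).length = 2 ^ (k + 2) := (len_aux k).1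

/-- the elements of the free group -/
def xg (k : ℕ) : FreeGroup (Fin 2) := FreeGroup.mk (xw k)

theorem z_aux (k : ℕ) : (FreeGroup.mk (XZ k).2.2 : FreeGroup (Fin 2)) =
    (FreeGroup.mk (XZ k).2.1)⁻¹ * FreeGroup.mk (XZ k).1 := by
  induction k with
  | zero =>
    show FreeGroup.mk (invRev [((0 : Fin 2), true)] ++ [(1, true)]) = _
    rw [← mul_mk, ← inv_mk]
    rfl
  | succ k ih =>
    show FreeGroup.mk (invRev (XZ k).2.2 ++ (XZ k).1) =
      (FreeGroup.mk ((XZ k).2.1 ++ invRev (XZ k).1 ++ (XZ k).2.2))⁻¹ * FreeGroup.mk (XZ k).2.1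
    rw [← mul_mk, ← mul_mk, ← mul_mk, ← inv_mk, ← inv_mk, ih]
    group

theorem xg_add_two (k : ℕ) : xg (k + 2) = xg (k + 1) * (xg k)⁻¹ * (xg (k + 1))⁻¹ * ((xg k)⁻¹)⁻¹ := by
  show FreeGroup.mk ((XZ k).2.1 ++ invRev (XZ k).1 ++ (XZ k).2.2) = FreeGroup.mk (XZ k).2.1 *
    (FreeGroup.mk (XZ k).1)⁻¹ * (FreeGroup.mk (XZ k).2.1)⁻¹ * ((FreeGroup.mk (XZ k).1)⁻¹)⁻¹
  rw [← mul_mk, ← mul_mk, ← inv_mk, z_aux]
  group

theorem drop_xg (A : Type) [AddCommGroup A] (k : ℕ) :
    Drop A (Nat.fib (k + 1)) (xg k) ∧ Drop A (Nat.fib (k + 2)) (xg (k + 1)) := by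
  induction k with
  | zero => exact ⟨drop_one _, drop_one _⟩
  | succ k ih =>
    refine ⟨ih.2, ?_⟩
    rw [xg_add_two]
    have h := ih.2.comm ih.1.inv
    have e : Nat.fib (k + 1 + 2) = Nat.fib (k + 2) + Nat.fib (k + 1) := by
      rw [Nat.fib_add_two, add_comm]
    rw [e]
    exact h

/-- homomorphisms to commutative groups -/
theorem comm_xg {H : Type} [CommGroup H] (χ : FreeGroup (Fin 2) →* H) (k : ℕ) : χ (xg (k + 2)) = 1 := by
  rw [xg_add_two]
  simp only [_root_.map_mul, _root_.map_inv]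
  rw [inv_inv, mul_comm (χ (xg (k + 1))), mul_assoc, mul_assoc, mul_inv_cancel_left, inv_mul_cancel]

/-! ### The image in `SL₂` of the field with five elements -/

open Matrix

section
variable {R : Type} [CommRing R]

theorem ch2 (M : Matrix (Fin 2) (Fin 2) R) (h : M.det = 1) : M * M = M.trace • M - 1 := by
  rw [Matrix.det_fin_two] at h
  ext i j
  fin_cases i <;> fin_cases j <;>
    simp [Matrix.mul_apply, Fin.sum_univ_two, Matrix.trace_fin_two] <;>
    first
    | linear_combination (-h)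
    | linear_combination (h)
    | ring

theorem adj2 (M : Matrix (Fin 2) (Fin 2) R) : M.adjugate = M.trace • 1 - M := by
  ext i j
  fin_cases i <;> fin_cases j <;> simp [Matrix.adjugate_fin_two, Matrix.trace_fin_two]

/-- Fricke's formula for the trace of a commutator -/
theorem fricke (P D : Matrix (Fin 2) (Fin 2) R) (hP : P.det = 1) (hD : D.det = 1) :
    (P * D * P.adjugate * D.adjugate).trace = P.trace ^ 2 + D.trace ^ 2 + (P * D).trace ^ 2 -
      P.trace * D.trace * (P * D).trace - 2 := by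
  have hPD : (P * D).det = 1 := by rw [Matrix.det_mul, hP, hD, one_mul]
  have h1 := ch2 P hP
  have h2 := ch2 D hD
  have h3 := ch2 (P * D) hPD
  have t1 : (P * D * D).trace = D.trace * (P * D).trace - P.trace := by
    rw [mul_assoc, h2, mul_sub, Matrix.trace_sub, mul_one, Matrix.mul_smul, Matrix.trace_smul,
      smul_eq_mul]
  have t2 : (P * D * P).trace = P.trace * (P * D).trace - D.trace := by
    rw [Matrix.trace_mul_comm, ← mul_assoc, h1, sub_mul, Matrix.trace_sub, one_mul,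
      Matrix.smul_mul, Matrix.trace_smul, smul_eq_mul]
  have t3 : (P * D * P * D).trace = (P * D).trace ^ 2 - 2 := by
    rw [mul_assoc (P * D), h3, Matrix.trace_sub, Matrix.trace_smul, smul_eq_mul, Matrix.trace_one]
    simp [sq]
  rw [adj2 P, adj2 D]
  have e : P * D * (P.trace • 1 - P) * (D.trace • 1 - D) =
      (P.trace * D.trace) • (P * D) - P.trace • (P * D * D) - D.trace • (P * D * P) +
        P * D * P * D := by
    simp only [mul_sub, sub_mul, Matrix.mul_smul, Matrix.smul_mul, mul_one, smul_smul]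
    rw [mul_comm D.trace P.trace]
    abel
  rw [e]
  simp only [Matrix.trace_add, Matrix.trace_sub, Matrix.trace_smul, smul_eq_mul, t1, t2, t3]
  ring

end

/-- the trace of an element of `SL₂` -/
def tr {R : Type} [CommRing R] (g : SpecialLinearGroup (Fin 2) R) : R :=
  Matrix.trace g.1

theorem tr_comm {R : Type} [CommRing R] (P D : SpecialLinearGroup (Fin 2) R) :
    tr (P * D * P⁻¹ * D⁻¹) = tr P ^ 2 + tr D ^ 2 + tr (P * D) ^ 2 - tr P * tr D * tr (P * D) - 2 := by
  exact fricke P.1 D.1 P.2 D.2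

theorem tr_mul_comm {R : Type} [CommRing R] (P D : SpecialLinearGroup (Fin 2) R) :
    tr (P * D) = tr (D * P) := by
  exact Matrix.trace_mul_comm P.1 D.1

theorem tr_inv {R : Type} [CommRing R] (P : SpecialLinearGroup (Fin 2) R) : tr P⁻¹ = tr P := by
  show Matrix.trace (P.1.adjugate) = Matrix.trace P.1
  rw [Matrix.adjugate_fin_two, Matrix.trace_fin_two, Matrix.trace_fin_two]
  simp [add_comm]

/-- the traces of the next commutator -/
theorem tr_next {R : Type} [CommRing R] (P Q : SpecialLinearGroup (Fin 2) R) :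
    tr ((P * Q⁻¹ * P⁻¹ * Q⁻¹⁻¹) * P⁻¹ * (P * Q⁻¹ * P⁻¹ * Q⁻¹⁻¹)⁻¹ * P⁻¹⁻¹) =
      2 + (tr (P * Q⁻¹ * P⁻¹ * Q⁻¹⁻¹) - 2) * (tr (P * Q⁻¹ * P⁻¹ * Q⁻¹⁻¹) + 2 - tr P ^ 2) := by
  set D : SpecialLinearGroup (Fin 2) R := Q⁻¹ * P⁻¹ * Q with hD
  have e1 : P * Q⁻¹ * P⁻¹ * Q⁻¹⁻¹ = P * D := by rw [hD]; group
  have e2 : tr D = tr P := by
    rw [hD, tr_mul_comm, ← mul_assoc, mul_inv_cancel, one_mul, tr_inv]
  have e3 : P * D * P⁻¹ * (P * D)⁻¹ * P⁻¹⁻¹ = P * D * P⁻¹ * D⁻¹ := by group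
  rw [e1, e3, tr_comm, e2]
  ring

end Pool.Agent.K6.H17.LC
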